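import Pool.Agent.Lib.MP_672b2e_co.Count

/-! In a Steiner system `S(4,5,21)` at most one point has a derived `S(3,4,20)` with a
subsystem `S(3,4,10)`. -/

namespace Pool.Agent.Results.MP_672b2e_co.OneDoubling

open Pool.Agent.Lib.MP_672b2e_co

theorem result (B : Finset (Finset (Fin 21))) (h5 : ∀ b ∈ B, b.card = 5)
    (h4 : ∀ T : Finset (Fin 21), T.card = 4 → ∃! b, b ∈ B ∧ T ⊆ b)
    (x y : Fin 21) (A A' : Finset (Fin 21)) (hA : A.card = 10) (hA' : A'.card = 10)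
    (hx : x ∉ A) (hy : y ∉ A')
    (h : ∀ b ∈ B, x ∈ b → 3 ≤ (b ∩ A).card → b ⊆ insert x A)
    (h' : ∀ b ∈ B, y ∈ b → 3 ≤ (b ∩ A').card → b ⊆ insert y A') : x = y :=
  St.main ⟨h5, h4⟩ (St.ev_of ⟨h5, h4⟩ hA hx h) (St.ev_of ⟨h5, h4⟩ hA' hy h')

end Pool.Agent.Results.MP_672b2e_co.OneDoubling
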